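import Mathlib

/-!
# MP_122225_al: the spectral radius of the left random walk does not detect left amenability

We construct a finitely generated left reversible monoid `S` satisfying the Klawe condition and a
finite generating family `X` such that `M_X` is defined, has spectral radius (and norm) strictly
larger than `1`, although `S` is not left amenable.
-/

set_option autoImplicit false

namespace Pool.Agent.Results.MP_122225_al.SpectralRadiusNotAmenable

open Filter Topology
open scoped ENNReal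

/-! ## Definitions of the problem -/

/-- `S` is left amenable: there is a finitely additive probability measure on all subsets with
`μ (a⁻¹A) = μ A`. -/
def LeftAmenable (S : Type*) [Monoid S] : Prop :=
  ∃ μ : Set S → ℝ, (∀ A, 0 ≤ μ A) ∧ μ Set.univ = 1 ∧
    (∀ A B, Disjoint A B → μ (A ∪ B) = μ A + μ B) ∧
    ∀ (a : S) (A : Set S), μ {s | a * s ∈ A} = μ A

/-- `S` is left reversible: `aS ∩ bS ≠ ∅` for all `a, b`. -/
def LeftReversible (S : Type*) [Monoid S] : Prop :=
  ∀ a b : S, ∃ x y : S, a * x = b * y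

/-- The Klawe condition. -/
def KlaweCondition (S : Type*) [Monoid S] : Prop :=
  ∀ s x y : S, s * x = s * y → ∃ t : S, x * t = y * t

open Classical in
/-- The matrix entries `M_{st} = |{i : x_i s = t}| / k`. -/
noncomputable def entry {S : Type*} [Monoid S] {k : ℕ} (X : Fin k → S) (s t : S) : ℝ :=
  ((Finset.univ.filter fun i => X i * s = t).card : ℝ) / k

/-- The real Hilbert space `ℓ₂(S)`. -/
abbrev L2 (S : Type*) : Type _ := lp (fun _ : S => ℝ) 2

/-- `T` is the left random walk Markov operator `M_X` on `ℓ₂(S)`: `(vT)(t) = ∑ₛ v(s) M_{st}`, the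
sum being convergent. `M_X` is defined iff such a `T` exists. -/
def IsMarkovOperator {S : Type*} [Monoid S] {k : ℕ} (X : Fin k → S) (T : L2 S →L[ℝ] L2 S) : Prop :=
  ∀ (v : L2 S) (t : S), HasSum (fun s => v s * entry X s t) (T v t)

/-- The spectral radius `lim ‖Tⁿ‖^{1/n}` exists and equals `ρ`. -/
def HasSpectralRadius {S : Type*} (T : L2 S →L[ℝ] L2 S) (ρ : ℝ) : Prop :=
  Tendsto (fun n : ℕ => ‖T ^ n‖ ^ (1 / (n : ℝ))) atTop (𝓝 ρ)

/-- `M_X` is defined, its spectral radius is `> 1` and its norm is `> 1`. -/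
def RadiusAndNormExceedOne {S : Type*} [Monoid S] {k : ℕ} (X : Fin k → S) : Prop :=
  ∃ T : L2 S →L[ℝ] L2 S, IsMarkovOperator X T ∧ (∃ ρ : ℝ, HasSpectralRadius T ρ ∧ 1 < ρ) ∧ 1 < ‖T‖

/-! ## The monoid -/

/-- The monoid `⟨x, a, b | xa = xb = 1⟩`; `(w, j)` is the normal form `w xʲ`. -/
structure T0 where
  /-- a word in `a, b` -/
  w : List Bool
  /-- the exponent of `x` -/
  j : ℕ
deriving DecidableEq

@[ext] theorem T0.ext' {p q : T0} (h1 : p.w = q.w) (h2 : p.j = q.j) : p = q := by
  cases p; cases q; simp_all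

instance : Monoid T0 where
  mul p q := ⟨p.w ++ q.w.drop p.j, (p.j - q.w.length) + q.j⟩
  one := ⟨[], 0⟩
  mul_assoc := by
    intro p q r
    apply T0.ext'
    · show (p.w ++ q.w.drop p.j) ++ r.w.drop ((p.j - q.w.length) + q.j) =
        p.w ++ (q.w ++ r.w.drop q.j).drop p.j
      rw [List.drop_append, List.drop_drop, List.append_assoc]
      congr 3
      omega
    · show ((p.j - q.w.length) + q.j - r.w.length) + r.j =
        (p.j - (q.w ++ r.w.drop q.j).length) + ((q.j - r.w.length) + r.j)
      rw [List.length_append, List.length_drop]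
      omega
  one_mul := by
    intro p
    apply T0.ext'
    · show [] ++ p.w.drop 0 = p.w
      simp
    · show (0 - p.w.length) + p.j = p.j
      omega
  mul_one := by
    intro p
    apply T0.ext'
    · show p.w ++ ([] : List Bool).drop p.j = p.w
      simp
    · show (p.j - ([] : List Bool).length) + 0 = p.j
      simp

theorem T0.mul_def (p q : T0) : p * q = ⟨p.w ++ q.w.drop p.j, (p.j - q.w.length) + q.j⟩ := rfl
theorem T0.one_def : (1 : T0) = ⟨[], 0⟩ := rfl

/-- `T0` together with a copy of itself consisting of elements absorbing on the right. -/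
inductive TT where
  | inl : T0 → TT
  | inr : T0 → TT
deriving DecidableEq

/-- The multiplication. -/
def TT.mul : TT → TT → TT
  | .inl p, .inl q => .inl (p * q)
  | .inr p, .inl q => .inr (p * q)
  | _, .inr r => .inr r

instance : Monoid TT where
  mul := TT.mul
  one := .inl 1
  mul_assoc := by
    intro p q r
    show TT.mul (TT.mul p q) r = TT.mul p (TT.mul q r)
    cases p <;> cases q <;> cases r <;> simp [TT.mul, mul_assoc]
  one_mul := by
    intro p
    show TT.mul (.inl 1) p = p
    cases p <;> simp [TT.mul]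
  mul_one := by
    intro p
    show TT.mul p (.inl 1) = p
    cases p <;> simp [TT.mul]

theorem TT.mul_ll (p q : T0) : TT.inl p * TT.inl q = TT.inl (p * q) := rfl
theorem TT.mul_rl (p q : T0) : TT.inr p * TT.inl q = TT.inr (p * q) := rfl
theorem TT.mul_r (p : TT) (q : T0) : p * TT.inr q = TT.inr q := by cases p <;> rfl

/-! ## Composition operators on `ℓ₂` -/

section comp

variable {S : Type*}

theorem norm_sq_eq (f : lp (fun _ : S => ℝ) 2) : HasSum (fun s => f s ^ 2) (‖f‖ ^ 2) := by
  have h := lp.hasSum_norm (p := 2) (by simp) f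
  simpa using h

theorem comp_sum_le (φ : S → S) (P : S → Finset S) (hP : ∀ s, s ∈ P (φ s)) (B : ℕ)
    (hB : ∀ t, (P t).card ≤ B) (f : lp (fun _ : S => ℝ) 2) (F : Finset S) :
    ∑ s ∈ F, f (φ s) ^ 2 ≤ B * ‖f‖ ^ 2 := by
  classical
  rw [Finset.sum_comp (fun t => f t ^ 2) φ]
  calc ∑ t ∈ F.image φ, (F.filter fun s => φ s = t).card • f t ^ 2
      ≤ ∑ t ∈ F.image φ, (B : ℝ) * f t ^ 2 := by
        refine Finset.sum_le_sum fun t _ => ?_
        rw [nsmul_eq_mul]
        have h1 : (F.filter fun s => φ s = t).card ≤ B := by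
          refine (Finset.card_le_card ?_).trans (hB t)
          intro s hs
          rw [Finset.mem_filter] at hs
          rw [← hs.2]
          exact hP s
        have h2 : ((F.filter fun s => φ s = t).card : ℝ) ≤ B := by exact_mod_cast h1
        have h3 : 0 ≤ f t ^ 2 := sq_nonneg _
        nlinarith
    _ = B * ∑ t ∈ F.image φ, f t ^ 2 := by rw [Finset.mul_sum]
    _ ≤ B * ‖f‖ ^ 2 := by
        have h := (norm_sq_eq f)
        have h4 := sum_le_hasSum (F.image φ) (fun t _ => sq_nonneg (f t)) h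
        have : (0 : ℝ) ≤ B := Nat.cast_nonneg _
        gcongr

/-- The composition operator `f ↦ f ∘ φ` for a map `φ` with bounded fibres. -/
noncomputable def compL (φ : S → S) (P : S → Finset S) (hP : ∀ s, s ∈ P (φ s)) (B : ℕ)
    (hB : ∀ t, (P t).card ≤ B) : lp (fun _ : S => ℝ) 2 →L[ℝ] lp (fun _ : S => ℝ) 2 :=
  LinearMap.mkContinuous
    { toFun := fun f => ⟨fun s => f (φ s), by
        apply memℓp_gen
        simp only [ENNReal.toReal_ofNat, Real.rpow_ofNat, Real.norm_eq_abs, sq_abs]
        exact summable_of_sum_le (fun s => sq_nonneg _) (comp_sum_le φ P hP B hB f)⟩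
      map_add' := fun f g => rfl
      map_smul' := fun r f => rfl }
    (Real.sqrt B) (by
      intro f
      have h1 := norm_sq_eq (S := S) (⟨fun s => f (φ s), by
        apply memℓp_gen
        simp only [ENNReal.toReal_ofNat, Real.rpow_ofNat, Real.norm_eq_abs, sq_abs]
        exact summable_of_sum_le (fun s => sq_nonneg _) (comp_sum_le φ P hP B hB f)⟩ :
          lp (fun _ : S => ℝ) 2)
      have h2 := hasSum_le_of_sum_le h1 (fun F => comp_sum_le φ P hP B hB f F)
      apply abs_le_of_sq_le_sq' _ _ |>.2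
      · rw [mul_pow, Real.sq_sqrt (Nat.cast_nonneg _)]
        exact h2
      · positivity)

theorem compL_apply (φ : S → S) (P : S → Finset S) (hP : ∀ s, s ∈ P (φ s)) (B : ℕ)
    (hB : ∀ t, (P t).card ≤ B) (f : lp (fun _ : S => ℝ) 2) (s : S) :
    compL φ P hP B hB f s = f (φ s) := rfl

end comp

section markov

variable {S : Type*} [Monoid S] {k : ℕ} (X : Fin k → S) (P : Fin k → S → Finset S)
  (hP : ∀ i s, s ∈ P i (X i * s)) (B : ℕ) (hB : ∀ i t, (P i t).card ≤ B)

/-- The operator `f ↦ (1/k) ∑ᵢ f(xᵢ ·)`. -/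
noncomputable def opC : lp (fun _ : S => ℝ) 2 →L[ℝ] lp (fun _ : S => ℝ) 2 :=
  (1 / (k : ℝ)) • ∑ i, compL (fun s => X i * s) (P i) (hP i) B (hB i)

theorem opC_apply (f : lp (fun _ : S => ℝ) 2) (s : S) :
    opC X P hP B hB f s = (1 / (k : ℝ)) * ∑ i, f (X i * s) := by
  unfold opC
  simp only [_root_.smul_apply, _root_.sum_apply, lp.coeFn_smul,
    Pi.smul_apply, smul_eq_mul, lp.coeFn_sum, Finset.sum_apply, compL_apply]

/-- The Markov operator is the adjoint. -/
noncomputable def opM : lp (fun _ : S => ℝ) 2 →L[ℝ] lp (fun _ : S => ℝ) 2 :=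
  ContinuousLinearMap.adjoint (opC X P hP B hB)

theorem opM_isMarkov : IsMarkovOperator X (opM X P hP B hB) := by
  classical
  intro v t
  have h1 := lp.hasSum_inner (𝕜 := ℝ) (opC X P hP B hB (lp.single 2 t (1 : ℝ))) v
  have h2 : inner ℝ (opC X P hP B hB (lp.single 2 t (1 : ℝ))) v = (opM X P hP B hB v) t := by
    unfold opM
    rw [← ContinuousLinearMap.adjoint_inner_right, lp.inner_single_left]
    simp
  rw [h2] at h1
  convert! h1 using 1
  ext s
  rw [opC_apply]
  unfold entry
  have h3 : ∑ i, (lp.single 2 t (1 : ℝ) : lp (fun _ : S => ℝ) 2) (X i * s) =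
      ((Finset.univ.filter fun i => X i * s = t).card : ℝ) := by
    rw [Finset.card_filter]
    push_cast
    refine Finset.sum_congr rfl fun i _ => ?_
    exact Pi.single_apply _ _ _
  rw [h3]
  simp only [RCLike.inner_apply, conj_trivial]
  ring

theorem opC_nonneg (f : lp (fun _ : S => ℝ) 2) (hf : ∀ s, 0 ≤ f s) (s : S) :
    0 ≤ opC X P hP B hB f s := by
  rw [opC_apply]
  have := Finset.sum_nonneg fun i (_ : i ∈ (Finset.univ : Finset (Fin k))) => hf (X i * s)
  positivity

theorem opC_lower (x : S) (N : ℕ) (I : Finset (Fin k)) (hI : ∀ i ∈ I, X i = x) (hN : N ≤ I.card)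
    (f : lp (fun _ : S => ℝ) 2) (hf : ∀ s, 0 ≤ f s) (s : S) :
    ((N : ℝ) / k) * f (x * s) ≤ opC X P hP B hB f s := by
  rw [opC_apply]
  have h1 : ∑ i ∈ I, f (X i * s) ≤ ∑ i, f (X i * s) :=
    Finset.sum_le_sum_of_subset_of_nonneg (Finset.subset_univ _) fun i _ _ => hf _
  have h2 : ∑ i ∈ I, f (X i * s) = I.card * f (x * s) := by
    rw [Finset.sum_congr rfl fun i hi => by rw [hI i hi], Finset.sum_const, nsmul_eq_mul]
  rw [h2] at h1
  have h3 : (N : ℝ) ≤ I.card := by exact_mod_cast hN
  have h4 := hf (x * s)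
  have h5 : (N : ℝ) * f (x * s) ≤ ∑ i, f (X i * s) := by nlinarith
  have h6 : (0 : ℝ) ≤ 1 / k := by positivity
  calc ((N : ℝ) / k) * f (x * s) = 1 / k * (N * f (x * s)) := by ring
    _ ≤ _ := mul_le_mul_of_nonneg_left h5 h6

theorem opC_pow (x : S) (N : ℕ) (I : Finset (Fin k)) (hI : ∀ i ∈ I, X i = x) (hN : N ≤ I.card)
    (f : lp (fun _ : S => ℝ) 2) (hf : ∀ s, 0 ≤ f s) (n : ℕ) (s : S) :
    0 ≤ (opC X P hP B hB ^ n) f s ∧ ((N : ℝ) / k) ^ n * f (x ^ n * s) ≤ (opC X P hP B hB ^ n) f s := by
  induction n generalizing s with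
  | zero =>
    simp only [pow_zero, one_mul]
    exact ⟨hf s, le_rfl⟩
  | succ n ih =>
    rw [pow_succ' (opC X P hP B hB) n]
    have e : (opC X P hP B hB * opC X P hP B hB ^ n) f =
        opC X P hP B hB ((opC X P hP B hB ^ n) f) := rfl
    rw [e]
    refine ⟨opC_nonneg X P hP B hB _ (fun s => (ih s).1) s, ?_⟩
    refine le_trans ?_ (opC_lower X P hP B hB x N I hI hN _ (fun s => (ih s).1) s)
    have h1 := (ih (x * s)).2
    have h2 : (0 : ℝ) ≤ (N : ℝ) / k := by positivity
    calc ((N : ℝ) / k) ^ (n + 1) * f (x ^ (n + 1) * s)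
        = (N : ℝ) / k * (((N : ℝ) / k) ^ n * f (x ^ n * (x * s))) := by
          rw [← mul_assoc (x ^ n), ← pow_succ]
          ring
      _ ≤ _ := mul_le_mul_of_nonneg_left h1 h2

theorem opM_pow_norm (n : ℕ) : ‖opM X P hP B hB ^ n‖ = ‖opC X P hP B hB ^ n‖ := by
  unfold opM
  rw [← ContinuousLinearMap.star_eq_adjoint, ← star_pow, ContinuousLinearMap.star_eq_adjoint]
  exact LinearIsometryEquiv.norm_map _ _

theorem norm_lower (x t : S) (N : ℕ) (I : Finset (Fin k)) (hI : ∀ i ∈ I, X i = x)
    (hN : N ≤ I.card) (n : ℕ) (F : Finset S) (hF : ∀ s ∈ F, x ^ n * s = t) (hcard : 2 ^ n ≤ F.card) :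
    (2 * ((N : ℝ) / k) ^ 2) ^ n ≤ ‖opM X P hP B hB ^ n‖ ^ 2 := by
  classical
  rw [opM_pow_norm]
  set e : lp (fun _ : S => ℝ) 2 := lp.single 2 t (1 : ℝ) with he
  have he0 : ∀ s, 0 ≤ e s := by
    intro s
    by_cases hs : s = t
    · rw [he, hs, lp.single_apply_self]
      norm_num
    · rw [he, lp.single_apply_ne _ _ _ hs]
  have het : e t = 1 := by
    rw [he, lp.single_apply_self]
  have hnorm : ‖e‖ = 1 := by
    rw [he, lp.norm_single (by norm_num)]
    simp
  have h1 := (opC X P hP B hB ^ n).le_opNorm e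
  rw [hnorm, mul_one] at h1
  have h2 := norm_sq_eq ((opC X P hP B hB ^ n) e)
  have h3 := sum_le_hasSum F (fun s _ => sq_nonneg _) h2
  have h4 : ∀ s ∈ F, (((N : ℝ) / k) ^ n) ^ 2 ≤ ((opC X P hP B hB ^ n) e s) ^ 2 := by
    intro s hs
    have h5 := (opC_pow X P hP B hB x N I hI hN e he0 n s).2
    rw [hF s hs, het, mul_one] at h5
    exact pow_le_pow_left₀ (by positivity) h5 2
  have h6 := Finset.card_nsmul_le_sum F _ _ h4
  rw [nsmul_eq_mul] at h6
  have h7 : (2 : ℝ) ^ n ≤ F.card := by exact_mod_cast hcard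
  calc (2 * ((N : ℝ) / k) ^ 2) ^ n = 2 ^ n * (((N : ℝ) / k) ^ n) ^ 2 := by
        rw [mul_pow]
        ring
    _ ≤ F.card * (((N : ℝ) / k) ^ n) ^ 2 := by gcongr
    _ ≤ ‖(opC X P hP B hB ^ n) e‖ ^ 2 := h6.trans h3
    _ ≤ ‖opC X P hP B hB ^ n‖ ^ 2 := pow_le_pow_left₀ (norm_nonneg _) h1 2

end markov

/-- If `‖Tⁿ‖ ≥ cⁿ` for all `n` then the spectral radius `lim ‖Tⁿ‖^{1/n}` exists and is `≥ c`. -/
theorem exists_radius {E : Type*} [NormedRing E] (T : E) (c : ℝ) (hc : 0 < c)
    (h : ∀ n, c ^ n ≤ ‖T ^ n‖) :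
    ∃ ρ : ℝ, Tendsto (fun n : ℕ => ‖T ^ n‖ ^ (1 / (n : ℝ))) atTop (𝓝 ρ) ∧ c ≤ ρ := by
  have hpos : ∀ n, 0 < ‖T ^ n‖ := fun n => lt_of_lt_of_le (pow_pos hc n) (h n)
  have hsub : Subadditive fun n : ℕ => Real.log ‖T ^ n‖ := by
    intro m n
    rw [← Real.log_mul (hpos m).ne' (hpos n).ne']
    apply Real.log_le_log (hpos _)
    rw [pow_add]
    exact norm_mul_le _ _
  have hlow : ∀ n : ℕ, 0 < n → Real.log c ≤ Real.log ‖T ^ n‖ / n := by
    intro n hn
    have hnR : (0 : ℝ) < n := by exact_mod_cast hn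
    rw [le_div_iff₀ hnR, mul_comm, ← Real.log_pow]
    exact Real.log_le_log (pow_pos hc n) (h n)
  have hbdd : BddBelow (Set.range fun n : ℕ => Real.log ‖T ^ n‖ / n) := by
    refine ⟨min (Real.log c) 0, ?_⟩
    rintro _ ⟨n, rfl⟩
    rcases Nat.eq_zero_or_pos n with hn | hn
    · subst hn
      simp
    · exact (min_le_left _ _).trans (hlow n hn)
  have hlim := hsub.tendsto_lim hbdd
  refine ⟨Real.exp hsub.lim, ?_, ?_⟩
  · have h2 := (Real.continuous_exp.tendsto _).comp hlim
    refine h2.congr' ?_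
    filter_upwards [eventually_gt_atTop 0] with n hn
    simp only [Function.comp]
    rw [Real.rpow_def_of_pos (hpos n)]
    congr 1
    ring
  · have h3 : Real.log c ≤ hsub.lim := by
      refine ge_of_tendsto hlim ?_
      filter_upwards [eventually_gt_atTop 0] with n hn
      exact hlow n hn
    calc c = Real.exp (Real.log c) := (Real.exp_log hc).symm
      _ ≤ _ := Real.exp_le_exp.2 h3

/-! ## Non-amenability of the free group -/

/-- The reduced words starting with a given letter. -/
def startsWith (c : Bool × Bool) : Set (FreeGroup Bool) := {g | g.toWord.head? = some c}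

theorem startsWith_cover (c : Bool × Bool) (g : FreeGroup Bool) :
    g ∈ startsWith (c.1, !c.2) ∨ FreeGroup.mk [c] * g ∈ startsWith c := by
  by_cases h : g ∈ startsWith (c.1, !c.2)
  · exact Or.inl h
  · right
    unfold startsWith at h ⊢
    simp only [Set.mem_ofPred_eq] at h ⊢
    have h1 : (FreeGroup.mk [c] * g).toWord = FreeGroup.reduce (c :: g.toWord) := by
      conv_lhs => rw [← FreeGroup.mk_toWord (x := g), FreeGroup.mul_mk, FreeGroup.toWord_mk]
      rfl
    rw [h1, FreeGroup.reduce.cons, FreeGroup.reduce_toWord]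
    cases hw : g.toWord with
    | nil => simp
    | cons d L =>
      rw [hw] at h
      simp only [List.head?_cons, Option.some.injEq] at h
      have h2 : ¬ (c.1 = d.1 ∧ c.2 = !d.2) := by
        rintro ⟨h3, h4⟩
        apply h
        ext
        · exact h3.symm
        · simp [h4]
      simp [h2]

theorem free_not_amenable (μ : Set (FreeGroup Bool) → ℝ) (h0 : ∀ A, 0 ≤ μ A)
    (h1 : μ Set.univ = 1) (hadd : ∀ A B, Disjoint A B → μ (A ∪ B) = μ A + μ B)
    (hinv : ∀ (a : FreeGroup Bool) (A : Set (FreeGroup Bool)), μ {s | a * s ∈ A} = μ A) : False := by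
  have hmono : ∀ A B : Set (FreeGroup Bool), A ⊆ B → μ A ≤ μ B := by
    intro A B hAB
    have := hadd A (B \ A) Set.disjoint_sdiff_right
    rw [Set.union_sdiff_cancel hAB] at this
    linarith [h0 (B \ A)]
  have hsub : ∀ A B : Set (FreeGroup Bool), μ (A ∪ B) ≤ μ A + μ B := by
    intro A B
    have h2 := hadd A (B \ A) Set.disjoint_sdiff_right
    rw [Set.union_sdiff_self] at h2
    have h3 := hmono (B \ A) B Set.sdiff_subset
    linarith
  have hge : ∀ c : Bool × Bool, 1 ≤ μ (startsWith (c.1, !c.2)) + μ (startsWith c) := by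
    intro c
    have h2 : (Set.univ : Set (FreeGroup Bool)) ⊆
        startsWith (c.1, !c.2) ∪ {s | FreeGroup.mk [c] * s ∈ startsWith c} := fun g _ =>
      startsWith_cover c g
    have h3 := hmono _ _ h2
    have h4 := hsub (startsWith (c.1, !c.2)) {s | FreeGroup.mk [c] * s ∈ startsWith c}
    rw [hinv] at h4
    linarith
  have hdisj : ∀ c d : Bool × Bool, c ≠ d → Disjoint (startsWith c) (startsWith d) := by
    intro c d hcd
    rw [Set.disjoint_left]
    intro g hg hg'
    unfold startsWith at hg hg'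
    simp only [Set.mem_ofPred_eq] at hg hg'
    rw [hg] at hg'
    exact hcd (Option.some.inj hg')
  have ha := hge (true, true)
  have hb := hge (false, true)
  simp only [Bool.not_true] at ha hb
  have e1 := hadd (startsWith (true, false)) (startsWith (true, true)) (hdisj _ _ (by decide))
  have e2 := hadd (startsWith (false, false)) (startsWith (false, true)) (hdisj _ _ (by decide))
  have e3 := hadd (startsWith (true, false) ∪ startsWith (true, true))
    (startsWith (false, false) ∪ startsWith (false, true)) (by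
      rw [Set.disjoint_union_left]
      constructor <;> rw [Set.disjoint_union_right] <;> constructor <;>
        exact hdisj _ _ (by decide))
  have e4 := hmono _ _ (Set.subset_univ ((startsWith (true, false) ∪ startsWith (true, true)) ∪
    (startsWith (false, false) ∪ startsWith (false, true))))
  linarith

/-! ## The example -/

/-- The monoid of the counterexample. -/
abbrev SS : Type := FreeGroup Bool × TT

/-- the element `x` -/
def xx : TT := .inl ⟨[], 1⟩
/-- the elements `a`, `b` -/
def ab (c : Bool) : TT := .inl ⟨[c], 0⟩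
/-- the absorbing base point -/
def rr : TT := .inr 1

/-- The generating family: `28` copies of `x`, the elements `a`, `b`, the absorbing base point and
the four free generators. -/
def XX (i : Fin 35) : SS :=
  if i.1 < 28 then (1, xx) else
  if i.1 = 28 then (1, ab true) else
  if i.1 = 29 then (1, ab false) else
  if i.1 = 30 then (1, rr) else
  if i.1 = 31 then (FreeGroup.of true, 1) else
  if i.1 = 32 then ((FreeGroup.of true)⁻¹, 1) else
  if i.1 = 33 then (FreeGroup.of false, 1) else ((FreeGroup.of false)⁻¹, 1)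

/-- Possible preimages under left multiplication by the second coordinate of a generator. -/
def QQ : TT → TT → Finset TT
  | .inl _, .inl q => {.inl ⟨true :: q.w, q.j⟩, .inl ⟨false :: q.w, q.j⟩, .inl ⟨[], q.j - 1⟩,
      .inl ⟨q.w.tail, q.j⟩, .inl q}
  | .inl _, .inr r => {.inr r}
  | .inr _, .inl _ => ∅
  | .inr _, .inr r => {.inl r, .inr r}

theorem QQ_card (c t : TT) : (QQ c t).card ≤ 5 := by
  cases c <;> cases t <;> simp only [QQ]
  · exact Finset.card_le_five
  · simp
  · simp
  · exact (Finset.card_le_two).trans (by norm_num)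

theorem QQ_ll (c q : T0) : QQ (.inl c) (.inl q) =
    {.inl ⟨true :: q.w, q.j⟩, .inl ⟨false :: q.w, q.j⟩, .inl ⟨[], q.j - 1⟩,
      .inl ⟨q.w.tail, q.j⟩, .inl q} := rfl
theorem QQ_lr (c r : T0) : QQ (.inl c) (.inr r) = {.inr r} := rfl
theorem QQ_rr (c r : T0) : QQ (.inr c) (.inr r) = {.inl r, .inr r} := rfl

theorem QQ_x (s : TT) : s ∈ QQ xx (xx * s) := by
  cases s with
  | inl q =>
    obtain ⟨w, j⟩ := q
    rw [xx, TT.mul_ll, QQ_ll]
    simp only [Finset.mem_insert, Finset.mem_singleton, TT.inl.injEq]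
    cases w with
    | nil => simp [T0.mul_def]
    | cons c w => cases c <;> simp [T0.mul_def]
  | inr r =>
    rw [xx, TT.mul_r, QQ_lr]
    exact Finset.mem_singleton_self _

theorem QQ_ab (c : Bool) (s : TT) : s ∈ QQ (ab c) (ab c * s) := by
  cases s with
  | inl q =>
    obtain ⟨w, j⟩ := q
    rw [ab, TT.mul_ll, QQ_ll]
    simp only [Finset.mem_insert, Finset.mem_singleton, TT.inl.injEq]
    simp [T0.mul_def]
  | inr r =>
    rw [ab, TT.mul_r, QQ_lr]
    exact Finset.mem_singleton_self _

theorem QQ_r (s : TT) : s ∈ QQ rr (rr * s) := by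
  cases s with
  | inl q =>
    rw [rr, TT.mul_rl, one_mul, QQ_rr]
    exact Finset.mem_insert_self _ _
  | inr r =>
    rw [rr, TT.mul_r, QQ_rr]
    exact Finset.mem_insert_of_mem (Finset.mem_singleton_self _)

theorem TT.one_def : (1 : TT) = TT.inl 1 := rfl

theorem QQ_one (s : TT) : s ∈ QQ 1 (1 * s) := by
  rw [one_mul, TT.one_def]
  cases s with
  | inl q =>
    rw [QQ_ll]
    simp only [Finset.mem_insert, Finset.mem_singleton, or_true]
  | inr r =>
    rw [QQ_lr]
    exact Finset.mem_singleton_self _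

/-- Possible preimages in `SS`. -/
def PP (i : Fin 35) (t : SS) : Finset SS :=
  {(XX i).1⁻¹ * t.1} ×ˢ QQ (XX i).2 t.2

theorem PP_card (i : Fin 35) (t : SS) : (PP i t).card ≤ 5 := by
  unfold PP
  rw [Finset.card_product, Finset.card_singleton, one_mul]
  exact QQ_card _ _

theorem PP_mem (i : Fin 35) (s : SS) : s ∈ PP i (XX i * s) := by
  unfold PP
  rw [Finset.mem_product]
  constructor
  · simp
  · show s.2 ∈ QQ (XX i).2 ((XX i).2 * s.2)
    unfold XX
    split_ifs
    · exact QQ_x _
    · exact QQ_ab _ _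
    · exact QQ_ab _ _
    · exact QQ_r _
    · exact QQ_one _
    · exact QQ_one _
    · exact QQ_one _
    · exact QQ_one _

theorem XX_generates : Submonoid.closure (Set.range XX) = ⊤ := by
  set H := Submonoid.closure (Set.range XX) with hH
  have hX : ∀ i, XX i ∈ H := fun i => Submonoid.subset_closure ⟨i, rfl⟩
  have hx : ((1, xx) : SS) ∈ H := hX 0
  have hab : ∀ c, ((1, ab c) : SS) ∈ H := by
    intro c
    cases c
    · exact hX 29
    · exact hX 28
  have hr : ((1, rr) : SS) ∈ H := hX 30
  have hof : ∀ c, ((FreeGroup.of c, 1) : SS) ∈ H := by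
    intro c
    cases c
    · exact hX 33
    · exact hX 31
  have hofi : ∀ c, (((FreeGroup.of c)⁻¹, 1) : SS) ∈ H := by
    intro c
    cases c
    · exact hX 34
    · exact hX 32
  have hfree : ∀ g : FreeGroup Bool, ((g, 1) : SS) ∈ H := by
    intro g
    induction g using FreeGroup.induction_on with
    | C1 => exact H.one_mem
    | of c => exact hof c
    | inv_of c _ => exact hofi c
    | mul g h hg hh =>
      have := H.mul_mem hg hh
      simpa using this
  have hxpow : ∀ j : ℕ, ((1, .inl ⟨[], j⟩) : SS) ∈ H := by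
    intro j
    induction j with
    | zero => exact H.one_mem
    | succ j ih =>
      have h2 := H.mul_mem ih hx
      have e : ((1, .inl ⟨[], j⟩) : SS) * (1, xx) = (1, .inl ⟨[], j + 1⟩) := by
        apply Prod.ext
        · simp
        · show TT.inl (⟨[], j⟩ * ⟨[], 1⟩) = _
          simp [T0.mul_def]
      rwa [e] at h2
  have hword : ∀ (w : List Bool) (j : ℕ), ((1, .inl ⟨w, j⟩) : SS) ∈ H := by
    intro w j
    induction w with
    | nil => exact hxpow j
    | cons c w ih =>
      have h2 := H.mul_mem (hab c) ih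
      have e : ((1, ab c) : SS) * (1, .inl ⟨w, j⟩) = (1, .inl ⟨c :: w, j⟩) := by
        apply Prod.ext
        · simp
        · show TT.inl (⟨[c], 0⟩ * ⟨w, j⟩) = _
          simp [T0.mul_def]
      rwa [e] at h2
  have hTT : ∀ s : TT, ((1, s) : SS) ∈ H := by
    intro s
    cases s with
    | inl q => exact hword q.w q.j
    | inr q =>
      have h2 := H.mul_mem hr (hword q.w q.j)
      have e : ((1, rr) : SS) * (1, .inl ⟨q.w, q.j⟩) = (1, .inr q) := by
        apply Prod.ext
        · simp
        · show TT.inr (1 * ⟨q.w, q.j⟩) = _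
          rw [one_mul]
      rwa [e] at h2
  rw [eq_top_iff]
  rintro ⟨g, s⟩ _
  have h2 := H.mul_mem (hfree g) (hTT s)
  simpa using h2

theorem SS_leftReversible : LeftReversible SS := by
  rintro ⟨g, s⟩ ⟨h, t⟩
  refine ⟨(g⁻¹, .inr 1), (h⁻¹, .inr 1), ?_⟩
  apply Prod.ext
  · simp
  · show s * .inr 1 = t * .inr 1
    rw [TT.mul_r, TT.mul_r]

theorem SS_klawe : KlaweCondition SS := by
  rintro ⟨g, s⟩ ⟨x1, x2⟩ ⟨y1, y2⟩ h
  have h1 : g * x1 = g * y1 := congrArg Prod.fst h
  have h2 : x1 = y1 := mul_left_cancel h1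
  refine ⟨(1, .inr 1), ?_⟩
  apply Prod.ext
  · show x1 * 1 = y1 * 1
    rw [h2]
  · show x2 * .inr 1 = y2 * .inr 1
    rw [TT.mul_r, TT.mul_r]

theorem SS_not_leftAmenable : ¬ LeftAmenable SS := by
  rintro ⟨μ, h0, h1, hadd, hinv⟩
  refine free_not_amenable (fun A => μ (Prod.fst ⁻¹' A)) (fun A => h0 _) ?_ ?_ ?_
  · simpa using h1
  · intro A B hAB
    rw [Set.preimage_union]
    exact hadd _ _ (hAB.preimage _)
  · intro a A
    exact hinv (a, 1) (Prod.fst ⁻¹' A)

theorem xx_pow (n : ℕ) : ((1, xx) : SS) ^ n = (1, .inl ⟨[], n⟩) := by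
  induction n with
  | zero => rfl
  | succ n ih =>
    rw [pow_succ, ih]
    apply Prod.ext
    · simp
    · show TT.inl (⟨[], n⟩ * ⟨[], 1⟩) = _
      simp [T0.mul_def]

/-- **Both questions of MP_122225_al have a negative answer.** There are a finitely generated left
reversible monoid `S` satisfying the Klawe condition and a finite generating family `X` for which
the left random walk operator `M_X` is defined (and bounded), its spectral radius
`lim ‖M_Xⁿ‖^{1/n}` exists and is strictly larger than `1`, its norm is strictly larger than `1`, and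
`S` is not left amenable. -/
theorem result : ∃ (S : Type) (_ : Monoid S) (k : ℕ) (X : Fin k → S),
    Submonoid.closure (Set.range X) = ⊤ ∧ LeftReversible S ∧ KlaweCondition S ∧
    ¬ LeftAmenable S ∧ RadiusAndNormExceedOne X := by
  refine ⟨SS, inferInstance, 35, XX, XX_generates, SS_leftReversible, SS_klawe,
    SS_not_leftAmenable, opM XX PP PP_mem 5 PP_card, opM_isMarkov XX PP PP_mem 5 PP_card, ?_⟩
  set T := opM XX PP PP_mem 5 PP_card with hT
  set c : ℝ := Real.sqrt (32 / 25) with hc
  have hc1 : 1 < c := by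
    rw [hc, Real.lt_sqrt (by norm_num)]
    norm_num
  have hcsq : c ^ 2 = 32 / 25 := Real.sq_sqrt (by norm_num)
  have hlow : ∀ n, c ^ n ≤ ‖T ^ n‖ := by
    intro n
    let F : Finset SS := (Finset.univ : Finset (Fin n → Bool)).map
      ⟨fun v => (1, .inl ⟨List.ofFn v, 0⟩), fun v w h => by
        have h2 := congrArg Prod.snd h
        simp only [TT.inl.injEq, T0.mk.injEq, and_true] at h2
        exact List.ofFn_injective h2⟩
    have h1 := norm_lower XX PP PP_mem 5 PP_card (1, xx) 1 28
      ((Finset.univ : Finset (Fin 35)).filter fun i => i.1 < 28)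
      (fun i hi => by
        have := (Finset.mem_filter.1 hi).2
        simp [XX, this])
      (by decide) n F
      (by
        intro s hs
        obtain ⟨v, _, rfl⟩ := Finset.mem_map.1 hs
        rw [xx_pow]
        apply Prod.ext
        · show (1 : FreeGroup Bool) * 1 = 1
          exact one_mul 1
        · show TT.inl (⟨[], n⟩ * ⟨List.ofFn v, 0⟩) = TT.inl ⟨[], 0⟩
          simp [T0.mul_def])
      (by simp [F])
    have h2 : (2 * (((28 : ℕ) : ℝ) / ((35 : ℕ) : ℝ)) ^ 2) = c ^ 2 := by
      rw [hcsq]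
      norm_num
    rw [h2, ← pow_mul, mul_comm 2 n, pow_mul] at h1
    exact le_of_sq_le_sq h1 (norm_nonneg _)
  constructor
  · obtain ⟨ρ, h1, h2⟩ := exists_radius T c (by linarith) hlow
    exact ⟨ρ, h1, by linarith⟩
  · have := hlow 1
    rw [pow_one, pow_one] at this
    linarith

end Pool.Agent.Results.MP_122225_al.SpectralRadiusNotAmenable
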